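import Pool.Agent.helper72.ODK.Spec2

set_option autoImplicit false

namespace Pool.Agent.helper72.UP

open Finset

theorem MVE_sq (N : ℕ) : (2 * N).choose N = ∑ i ∈ range (N + 1), N.choose i * N.choose i := by
  have h := Nat.add_choose_eq N N N
  rw [← two_mul] at h
  rw [h, Finset.Nat.sum_antidiagonal_eq_sum_range_succ (fun i j => N.choose i * N.choose j) N]
  refine sum_congr rfl fun i hi => ?_
  have : i ≤ N := by
    have := mem_range.1 hi
    omega
  rw [Nat.choose_symm this]

theorem MVE_ge : ∀ n r : ℕ, 1 ≤ r → r + 1 ≤ n → n ≤ n.choose r := by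
  intro n
  induction n with
  | zero => intro r h1 h2; omega
  | succ n ih =>
    intro r h1 h2
    obtain ⟨s, rfl⟩ : ∃ s, r = s + 1 := ⟨r - 1, by omega⟩
    rw [Nat.choose_succ_succ]
    by_cases hs : s + 1 + 1 ≤ n
    · have a1 := ih (s + 1) (by omega) hs
      have a2 : 1 ≤ n.choose s := Nat.choose_pos (by omega)
      rw [Nat.succ_eq_add_one]
      omega
    · have hs' : s + 1 = n := by omega
      have a1 : n.choose (s + 1) = 1 := by rw [hs', Nat.choose_self]
      have a2 : n.choose s = n := by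
        have : s = n - 1 := by omega
        rw [this, Nat.choose_symm (by omega : 1 ≤ n), Nat.choose_one_right]
      rw [Nat.succ_eq_add_one, a1, a2]

theorem MVE_refl (N K : ℕ) (hNK : N ≤ 2 * K) (hKN : 2 * K + 1 ≤ 2 * N) (hN : 2 ≤ N) :
    ∑ i ∈ Icc 1 (N - 1), N.choose i * N.choose i + 4 ≤ 2 * ∑ i ∈ Icc 1 K, N.choose i * N.choose i := by
  have hrefl : ∑ i ∈ Icc 1 K, N.choose i * N.choose i = ∑ i ∈ Icc (N - K) (N - 1), N.choose i * N.choose i := by
    refine sum_nbij' (fun i => N - i) (fun i => N - i) ?_ ?_ ?_ ?_ ?_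
    · intro i hi
      rw [mem_Icc] at hi ⊢
      omega
    · intro i hi
      rw [mem_Icc] at hi ⊢
      omega
    · intro i hi
      rw [mem_Icc] at hi
      omega
    · intro i hi
      rw [mem_Icc] at hi
      omega
    · intro i hi
      rw [mem_Icc] at hi
      have : i ≤ N := by omega
      rw [Nat.choose_symm this]
  have hui := sum_union_inter (s₁ := Icc 1 K) (s₂ := Icc (N - K) (N - 1)) (f := fun i => N.choose i * N.choose i)
  have hun : Icc 1 K ∪ Icc (N - K) (N - 1) = Icc 1 (N - 1) := by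
    ext i
    simp only [mem_union, mem_Icc]
    omega
  have hK : N.choose K * N.choose K ≤ ∑ i ∈ Icc 1 K ∩ Icc (N - K) (N - 1), N.choose i * N.choose i := by
    refine single_le_sum (f := fun i => N.choose i * N.choose i) (fun i _ => Nat.zero_le _) ?_
    simp only [mem_inter, mem_Icc]
    omega
  have hfK : 4 ≤ N.choose K * N.choose K := by
    have h1 : 2 ≤ N.choose K := le_trans hN (MVE_ge N K (by omega) (by omega))
    nlinarith
  rw [hun, ← hrefl] at hui
  linarith

theorem MVE : MVE_stmt := by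
  intro N K hN hNK hKN
  have e1 : (2 * N + 1) / 2 = N := by omega
  have e2 : 2 * N / 2 = N := by omega
  have e3 : (2 * K + 1) / 2 = K := by omega
  have hV : VV (2 * N) (2 * K + 1) = ∑ i ∈ Icc 1 K, N.choose i * N.choose i := by
    unfold VV uu
    rw [e1, e2, e3]
  rw [hV]
  have hm := MVE_refl N K hNK hKN hN
  have htot : (2 * N).choose N = 2 + ∑ i ∈ Icc 1 (N - 1), N.choose i * N.choose i := by
    rw [MVE_sq]
    obtain ⟨M, rfl⟩ : ∃ M, N = M + 1 := ⟨N - 1, by omega⟩
    rw [sum_range_succ, sum_range_succ']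
    have h1 : ∑ i ∈ Icc 1 (M + 1 - 1), (M + 1).choose i * (M + 1).choose i =
        ∑ i ∈ range M, (M + 1).choose (i + 1) * (M + 1).choose (i + 1) := by
      rw [Nat.add_sub_cancel, range_eq_Ico, sum_Ico_add' (fun i => (M + 1).choose i * (M + 1).choose i) 0 M 1]
      refine sum_congr ?_ fun _ _ => rfl
      ext i
      simp only [mem_Icc, mem_Ico]
      omega
    rw [h1]
    simp only [Nat.choose_zero_right, Nat.choose_self]
    ring
  have hhalf : (2 * N).choose N = 2 * (2 * N - 1).choose (N - 1) := by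
    obtain ⟨M, rfl⟩ : ∃ M, N = M + 1 := ⟨N - 1, by omega⟩
    have h1 : 2 * (M + 1) = 2 * M + 1 + 1 := by ring
    have h2 : 2 * (M + 1) - 1 = 2 * M + 1 := by omega
    rw [h2, h1, Nat.choose_succ_succ, Nat.add_sub_cancel, Nat.succ_eq_add_one, Nat.choose_symm_half]
    ring
  have hmid : (2 * N - 1).choose (2 * K) ≤ (2 * N - 1).choose (N - 1) := by
    have h1 := Nat.choose_le_middle (2 * K) (2 * N - 1)
    have h2 : (2 * N - 1) / 2 = N - 1 := by omega
    rwa [h2] at h1
  linarith

end Pool.Agent.helper72.UP
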